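import Pool.Agent.Helper64.HG.Stmts

set_option autoImplicit false

namespace Pool.Agent.Helper64.HG

/-- a chain induces a preconnected graph -/
theorem earex_pre {V : Type} (G : SimpleGraph V) (A : List V) (h : Ch G A) :
    (G.induce {x | x ∈ A}).Preconnected := by
  have key : ∀ (i : ℕ) (hi : i < A.length),
      (G.induce {x | x ∈ A}).Reachable ⟨A[0], List.getElem_mem (by omega)⟩ ⟨A[i], List.getElem_mem hi⟩ := by
    intro i
    induction i with
    | zero => intro hi; exact SimpleGraph.Reachable.refl _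
    | succ i ih =>
      intro hi
      refine (ih (by omega)).trans (SimpleGraph.Adj.reachable ?_)
      exact h i hi
  rintro ⟨x, hx⟩ ⟨y, hy⟩
  obtain ⟨i, hi, rfl⟩ := List.getElem_of_mem hx
  obtain ⟨j, hj, rfl⟩ := List.getElem_of_mem hy
  exact (key i hi).symm.trans (key j hj)

theorem earex_chIP {V : Type} (G : SimpleGraph V) (A : List V) (h : IP G A) : Ch G A := by
  intro i hi
  exact (h.2 i (i + 1) (by omega) hi (by omega)).2 rfl

/-- the part of `V` outside `L` that is reachable from `x` -/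
def earexR {V : Type} (G : SimpleGraph V) (L : List V) (x : V) (hx : x ∉ L) : Set V :=
  {v | ∃ hv : v ∉ L, (G.induce {w | w ∉ L}).Reachable ⟨x, hx⟩ ⟨v, hv⟩}

theorem earexR_pre {V : Type} (G : SimpleGraph V) (L : List V) (x : V) (hx : x ∉ L) :
    (G.induce (earexR G L x hx)).Preconnected := by
  classical
  have hxR : x ∈ earexR G L x hx := ⟨hx, SimpleGraph.Reachable.refl _⟩
  have key : ∀ u (hu : u ∈ earexR G L x hx),
      (G.induce (earexR G L x hx)).Reachable ⟨x, hxR⟩ ⟨u, hu⟩ := by
    intro u hu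
    obtain ⟨hv, ⟨p⟩⟩ := hu
    let q : G.Walk x u := p.map (SimpleGraph.Embedding.induce {w | w ∉ L}).toHom
    have hq : ∀ w ∈ q.support, w ∈ earexR G L x hx := by
      intro w hw
      change w ∈ (p.map (SimpleGraph.Embedding.induce {w | w ∉ L}).toHom).support at hw
      rw [SimpleGraph.Walk.support_map, List.mem_map] at hw
      obtain ⟨w', hw', rfl⟩ := hw
      exact ⟨w'.2, ⟨p.takeUntil w' hw'⟩⟩
    exact ⟨q.induce _ hq⟩
  rintro ⟨a, ha⟩ ⟨b, hb⟩
  exact (key a ha).symm.trans (key b hb)

theorem earexR_out {V : Type} (G : SimpleGraph V) (L : List V) (x : V) (hx : x ∉ L) (y z : V)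
    (hy : y ∈ earexR G L x hx) (hz : z ∉ earexR G L x hx) (h : G.Adj y z) : z ∈ L := by
  by_contra hzL
  apply hz
  obtain ⟨hv, hr⟩ := hy
  refine ⟨hzL, hr.trans (SimpleGraph.Adj.reachable ?_)⟩
  exact h

theorem st_EAREX (hS : ST_SHO) : ST_EAREX := by
  classical
  intro V _ G L h2 hO hIC hx
  obtain ⟨x, hx⟩ := hx
  have hRL : ∀ v ∈ earexR G L x hx, v ∉ L := fun v hv => hv.1
  have hxR : x ∈ earexR G L x hx := ⟨hx, SimpleGraph.Reachable.refl _⟩
  -- first attachment
  have hlen := hIC.1
  have hnd := hIC.2.1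
  have hs : ∃ s ∈ L, ∃ y ∈ earexR G L x hx, G.Adj s y := by
    obtain ⟨p⟩ := h2.1 x L[0]
    obtain ⟨d, _, hd1, hd2⟩ := p.exists_boundary_dart (earexR G L x hx) hxR
      (fun h => hRL _ h (List.getElem_mem _))
    exact ⟨d.snd, earexR_out G L x hx d.fst d.snd hd1 hd2 d.adj, d.fst, hd1, d.adj.symm⟩
  obtain ⟨s, hsL, y, hy, hsy⟩ := hs
  -- second attachment
  have ht : ∃ t ∈ L, t ≠ s ∧ ∃ y ∈ earexR G L x hx, G.Adj t y := by
    have hxs : x ≠ s := fun h => hx (h ▸ hsL)
    obtain ⟨l, hl, hls⟩ : ∃ l ∈ L, l ≠ s := by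
      by_cases h : L[0] = s
      · refine ⟨L[1], List.getElem_mem _, ?_⟩
        intro h1
        have := (List.Nodup.getElem_inj_iff hnd (hi := by omega) (hj := by omega)).1 (h.trans h1.symm)
        omega
      · exact ⟨L[0], List.getElem_mem _, h⟩
    obtain ⟨p⟩ := h2.2 s ⟨x, hxs⟩ ⟨l, hls⟩
    obtain ⟨d, _, hd1, hd2⟩ := p.exists_boundary_dart {z | z.1 ∈ earexR G L x hx} hxR
      (fun h => hRL _ h hl)
    have hadj : G.Adj d.fst.1 d.snd.1 := d.adj
    exact ⟨d.snd.1, earexR_out G L x hx d.fst.1 d.snd.1 hd1 hd2 hadj, d.snd.2, d.fst.1, hd1, hadj.symm⟩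
  obtain ⟨t, htL, hts, y', hy', hty'⟩ := ht
  -- existence of a link
  have hex : ∃ n, ∃ (E : List V) (s t : V), E.length = n ∧ s ∈ L ∧ t ∈ L ∧ s ≠ t ∧ Link G s E t ∧
      ∀ x ∈ E, x ∉ L := by
    obtain ⟨A, hA, hlink⟩ := hS V G (earexR G L x hx) s t (earexR_pre G L x hx) (fun h => hRL _ h hsL)
      (fun h => hRL _ h htL) ⟨y, hy, hsy⟩ ⟨y', hy', hty'⟩
    exact ⟨A.length, A, s, t, rfl, hsL, htL, hts.symm, hlink, fun z hz => hRL _ (hA z hz)⟩
  obtain ⟨E, s, t, hEn, hsL, htL, hst, hlink, hEL⟩ := Nat.find_spec hex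
  have hmin : ∀ (E' : List V) (s' t' : V), s' ∈ L → t' ∈ L → s' ≠ t' → Link G s' E' t' →
      (∀ x ∈ E', x ∉ L) → E.length ≤ E'.length := by
    intro E' s' t' h1 h2 h3 h4 h5
    rw [hEn]
    exact Nat.find_min' hex ⟨E', s', t', rfl, h1, h2, h3, h4, h5⟩
  refine ⟨E, s, t, hsL, htL, hst, hlink, hEL, ?_⟩
  intro e he z hz hzs hzt hadj
  obtain ⟨hne, hIP, huE, hwE, hhead, hlast⟩ := hlink
  have hch := earex_chIP G E hIP
  have hpos : 0 < E.length := List.length_pos_iff.2 hne
  obtain ⟨i, hi, rfl⟩ := List.getElem_of_mem he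
  have hs0 : G.Adj s E[0] := by
    apply (hhead E[0] (List.getElem_mem _)).2
    rw [List.head?_eq_getElem?, List.getElem?_eq_getElem hpos]
  have ht0 : G.Adj t (E[E.length - 1]'(by omega)) := by
    apply (hlast _ (List.getElem_mem _)).2
    rw [List.getLast?_eq_getElem?, List.getElem?_eq_getElem (by omega)]
  -- use the beginning of the list
  have h1 : E.length ≤ i + 1 := by
    have hch1 : Ch G (E.take (i + 1)) := by
      intro j hj
      rw [List.length_take] at hj
      rw [List.getElem_take, List.getElem_take]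
      exact hch j (by omega)
    have hsub : ∀ x ∈ E.take (i + 1), x ∈ E := fun x hx => List.mem_of_mem_take hx
    obtain ⟨A, hA, hl⟩ := hS V G {x | x ∈ E.take (i + 1)} s z (earex_pre G _ hch1)
      (fun h => hEL _ (hsub _ h) hsL) (fun h => hEL _ (hsub _ h) hz)
      ⟨E[0], by
        have : (E.take (i + 1))[0]'(by rw [List.length_take]; omega) = E[0] := List.getElem_take
        rw [← this]
        exact List.getElem_mem _, hs0⟩
      ⟨E[i], by
        have : (E.take (i + 1))[i]'(by rw [List.length_take]; omega) = E[i] := List.getElem_take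
        rw [← this]
        exact List.getElem_mem _, hadj.symm⟩
    have h3 := hmin A s z hsL hz (Ne.symm hzs) hl (fun x hx => hEL _ (hsub _ (hA x hx)))
    have h4 : A.length ≤ (E.take (i + 1)).length := (List.subperm_of_subset hl.2.1.1 hA).length_le
    rw [List.length_take] at h4
    omega
  -- use the end of the list
  have h2 : i = 0 := by
    have hch1 : Ch G (E.drop i) := by
      intro j hj
      rw [List.length_drop] at hj
      rw [List.getElem_drop, List.getElem_drop]
      exact hch (i + j) (by omega)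
    have hsub : ∀ x ∈ E.drop i, x ∈ E := fun x hx => List.mem_of_mem_drop hx
    obtain ⟨A, hA, hl⟩ := hS V G {x | x ∈ E.drop i} z t (earex_pre G _ hch1)
      (fun h => hEL _ (hsub _ h) hz) (fun h => hEL _ (hsub _ h) htL)
      ⟨E[i], by
        have : (E.drop i)[0]'(by rw [List.length_drop]; omega) = E[i] := by
          rw [List.getElem_drop]; rfl
        rw [← this]
        exact List.getElem_mem _, hadj.symm⟩
      ⟨E[E.length - 1]'(by omega), by
        have : (E.drop i)[E.length - 1 - i]'(by rw [List.length_drop]; omega) = E[E.length - 1]'(by omega) := by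
          rw [List.getElem_drop]
          congr 1
          omega
        rw [← this]
        exact List.getElem_mem _, ht0⟩
    have h3 := hmin A z t hz htL hzt hl (fun x hx => hEL _ (hsub _ (hA x hx)))
    have h4 : A.length ≤ (E.drop i).length := (List.subperm_of_subset hl.2.1.1 hA).length_le
    rw [List.length_drop] at h4
    omega
  subst h2
  have h3 : E.length - 1 = 0 := by omega
  have ht1 : G.Adj t E[0] := by
    have : E[E.length - 1]'(by omega) = E[0] := by
      congr 1
    rw [← this]; exact ht0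
  exact hst (hO L hIC E[0] (hEL _ (List.getElem_mem _)) s hsL t htL hs0.symm ht1.symm)

end Pool.Agent.Helper64.HG
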